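import Mathlib

set_option autoImplicit false

/-! Definitions for the semigroups `(βℕ, ⊕)` and `(βℕ, ⊙)` over the positive integers. -/

namespace Pool.Agent.Work.MP_d04c84_co

/-- A (nonempty) two-sided ideal of `(S, op)`. -/
def IsIdeal {S : Type} (op : S → S → S) (I : Set S) : Prop :=
  I.Nonempty ∧ ∀ s : S, ∀ x ∈ I, op s x ∈ I ∧ op x s ∈ I

/-- The smallest two-sided ideal of `(S, op)`: the intersection of all two-sided ideals. -/
def K {S : Type} (op : S → S → S) : Set S := {x | ∀ I : Set S, IsIdeal op I → x ∈ I}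

/-- The sum of ultrafilters: `A ∈ p ⊕ q ↔ {x | {y | x + y ∈ A} ∈ q} ∈ p`. -/
def uadd (p q : Ultrafilter ℕ+) : Ultrafilter ℕ+ := p.bind (fun x => q.map (fun y => x + y))

/-- The product of ultrafilters: `A ∈ p ⊙ q ↔ {x | {y | x * y ∈ A} ∈ q} ∈ p`. -/
def umul (p q : Ultrafilter ℕ+) : Ultrafilter ℕ+ := p.bind (fun x => q.map (fun y => x * y))

theorem mem_uadd (p q : Ultrafilter ℕ+) (A : Set ℕ+) :
    A ∈ uadd p q ↔ {x : ℕ+ | {y : ℕ+ | x + y ∈ A} ∈ q} ∈ p := Iff.rfl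

theorem mem_umul (p q : Ultrafilter ℕ+) (A : Set ℕ+) :
    A ∈ umul p q ↔ {x : ℕ+ | {y : ℕ+ | x * y ∈ A} ∈ q} ∈ p := Iff.rfl

/-- `A` is additively central: it belongs to an idempotent of the smallest ideal of
`(βℕ, ⊕)`. -/
def AddCentral (A : Set ℕ+) : Prop :=
  ∃ u : Ultrafilter ℕ+, u ∈ K uadd ∧ uadd u u = u ∧ A ∈ u

end Pool.Agent.Work.MP_d04c84_co
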