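import Mathlib
import Pool.Agent.Work.MP_d04c84_co.Defs

set_option autoImplicit false

/-! Compact right topological semigroups given by an operation. -/

namespace Pool.Agent.Work.MP_d04c84_co

section General

variable {S : Type} [TopologicalSpace S] [CompactSpace S] [T2Space S]

theorem exists_minimal_left (op : S → S → S) (hassoc : ∀ a b c, op (op a b) c = op a (op b c))
    (hc : ∀ r, Continuous (fun s => op s r)) (L : Set S) (hLc : IsClosed L) (hLn : L.Nonempty)
    (hL : ∀ s : S, ∀ x ∈ L, op s x ∈ L) :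
    ∃ L0 : Set S, L0 ⊆ L ∧ IsClosed L0 ∧ L0.Nonempty ∧ (∀ s : S, ∀ x ∈ L0, op s x ∈ L0) ∧
      ∀ x ∈ L0, ∀ y ∈ L0, ∃ s, op s x = y := by
  let F : Set (Set S) := {N | IsClosed N ∧ N.Nonempty ∧ ∀ s : S, ∀ x ∈ N, op s x ∈ N}
  have hLF : L ∈ F := ⟨hLc, hLn, hL⟩
  obtain ⟨m, hmL, hm⟩ := zorn_superset_nonempty F (by
    intro c hcF hchain hcne
    refine ⟨⋂₀ c, ⟨isClosed_sInter fun t ht => (hcF ht).1, ?_, ?_⟩, fun s hs =>
      Set.sInter_subset_of_mem hs⟩
    · rw [Set.sInter_eq_iInter]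
      have : Nonempty c := hcne.to_subtype
      apply IsCompact.nonempty_iInter_of_directed_nonempty_isCompact_isClosed
      · exact DirectedOn.directed_val (IsChain.directedOn hchain.symm)
      · exact fun i => (hcF i.prop).2.1
      · exact fun i => (hcF i.prop).1.isCompact
      · exact fun i => (hcF i.prop).1
    · intro s x hx
      rw [Set.mem_sInter] at hx ⊢
      exact fun t ht => (hcF ht).2.2 s x (hx t ht)) L hLF
  refine ⟨m, hmL, hm.prop.1, hm.prop.2.1, hm.prop.2.2, ?_⟩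
  intro x hx y hy
  have himg : (fun s => op s x) '' Set.univ = m := by
    apply hm.eq_of_subset
    · refine ⟨(isCompact_univ.image (hc x)).isClosed, ⟨_, ⟨x, trivial, rfl⟩⟩, ?_⟩
      rintro s _ ⟨t, -, rfl⟩
      exact ⟨op s t, trivial, hassoc s t x⟩
    · rintro _ ⟨t, -, rfl⟩
      exact hm.prop.2.2 t x hx
  rw [← himg] at hy
  obtain ⟨s, -, hs⟩ := hy
  exact ⟨s, hs⟩

omit [TopologicalSpace S] [CompactSpace S] [T2Space S] in
theorem subset_K (op : S → S → S) (L0 : Set S)
    (hL : ∀ s : S, ∀ x ∈ L0, op s x ∈ L0) (hmin : ∀ x ∈ L0, ∀ y ∈ L0, ∃ s, op s x = y) :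
    L0 ⊆ K op := by
  intro y hy I hI
  obtain ⟨⟨x, hx⟩, hI2⟩ := hI
  have h1 : op x y ∈ I := (hI2 y x hx).2
  obtain ⟨s, hs⟩ := hmin (op x y) (hL x y hy) y hy
  rw [← hs]
  exact (hI2 s _ h1).1

theorem exists_idem (op : S → S → S) (hassoc : ∀ a b c, op (op a b) c = op a (op b c))
    (hc : ∀ r, Continuous (fun s => op s r)) (T : Set S) (hTc : IsClosed T) (hTn : T.Nonempty)
    (hT : ∀ x ∈ T, ∀ y ∈ T, op x y ∈ T) : ∃ e ∈ T, op e e = e := by
  let _ : Semigroup S := { mul := op, mul_assoc := hassoc }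
  exact exists_idempotent_in_compact_subsemigroup (M := S) hc T hTn hTc.isCompact hT

/-- The intersection `K` of all two-sided ideals is itself a two-sided ideal, hence the smallest
one. -/
theorem isIdeal_K [Nonempty S] (op : S → S → S) (hassoc : ∀ a b c, op (op a b) c = op a (op b c))
    (hc : ∀ r, Continuous (fun s => op s r)) : IsIdeal op (K op) := by
  obtain ⟨L0, -, -, hne, hL, hmin⟩ := exists_minimal_left op hassoc hc Set.univ isClosed_univ
    Set.univ_nonempty (fun _ _ _ => trivial)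
  refine ⟨hne.mono (subset_K op L0 hL hmin), ?_⟩
  intro s x hx
  exact ⟨fun I hI => (hI.2 s x (hx I hI)).1, fun I hI => (hI.2 s x (hx I hI)).2⟩

end General

end Pool.Agent.Work.MP_d04c84_co
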