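import Mathlib
import Pool.Agent.Work.MP_d04c84_co.General

set_option autoImplicit false

/-! The semigroups `(βℕ, ⊕)` and `(βℕ, ⊙)` over the positive integers. -/

namespace Pool.Agent.Work.MP_d04c84_co

theorem uadd_assoc (p q r : Ultrafilter ℕ+) : uadd (uadd p q) r = uadd p (uadd q r) := by
  apply Ultrafilter.ext
  intro A
  have h1 : A ∈ uadd (uadd p q) r ↔
      {x : ℕ+ | {y : ℕ+ | {z : ℕ+ | (x + y) + z ∈ A} ∈ r} ∈ q} ∈ p := Iff.rfl
  have h2 : A ∈ uadd p (uadd q r) ↔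
      {x : ℕ+ | {y : ℕ+ | {z : ℕ+ | x + (y + z) ∈ A} ∈ r} ∈ q} ∈ p := Iff.rfl
  rw [h1, h2]
  simp only [add_assoc]

theorem umul_assoc (p q r : Ultrafilter ℕ+) : umul (umul p q) r = umul p (umul q r) := by
  apply Ultrafilter.ext
  intro A
  have h1 : A ∈ umul (umul p q) r ↔
      {x : ℕ+ | {y : ℕ+ | {z : ℕ+ | (x * y) * z ∈ A} ∈ r} ∈ q} ∈ p := Iff.rfl
  have h2 : A ∈ umul p (umul q r) ↔
      {x : ℕ+ | {y : ℕ+ | {z : ℕ+ | x * (y * z) ∈ A} ∈ r} ∈ q} ∈ p := Iff.rfl
  rw [h1, h2]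
  simp only [mul_assoc]

theorem uadd_cont (r : Ultrafilter ℕ+) : Continuous (fun s => uadd s r) :=
  ultrafilterBasis_is_basis.continuous_iff.2 <| Set.forall_mem_range.mpr fun s ↦
    ultrafilter_isOpen_basic {x : ℕ+ | {y : ℕ+ | x + y ∈ s} ∈ r}

theorem umul_cont (r : Ultrafilter ℕ+) : Continuous (fun s => umul s r) :=
  ultrafilterBasis_is_basis.continuous_iff.2 <| Set.forall_mem_range.mpr fun s ↦
    ultrafilter_isOpen_basic {x : ℕ+ | {y : ℕ+ | x * y ∈ s} ∈ r}

theorem AddCentral.mono {A B : Set ℕ+} (h : AddCentral A) (hAB : A ⊆ B) : AddCentral B := by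
  obtain ⟨u, h1, h2, h3⟩ := h
  exact ⟨u, h1, h2, Filter.mem_of_superset h3 hAB⟩

/-- The set of ultrafilters all of whose members are additively central. -/
def J : Set (Ultrafilter ℕ+) := {w | ∀ A ∈ w, AddCentral A}

theorem J_closed : IsClosed J := by
  have : J = ⋂ A ∈ {A : Set ℕ+ | ¬ AddCentral A}, {w : Ultrafilter ℕ+ | A ∉ w} := by
    ext w
    simp only [J, Set.mem_ofPred_eq, Set.mem_iInter]
    constructor
    · intro h A hA hw
      exact hA (h A hw)
    · intro h A hA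
      by_contra hcon
      exact h A hcon hA
  rw [this]
  apply isClosed_biInter
  intro A _
  have : {w : Ultrafilter ℕ+ | A ∉ w} = {w : Ultrafilter ℕ+ | Aᶜ ∈ w} := by
    ext w
    simp only [Set.mem_ofPred_eq]
    exact Ultrafilter.compl_mem_iff_notMem.symm
  rw [this]
  exact ultrafilter_isClosed_basic _

/-- Dilation by `z` as a map. -/
theorem map_mul_uadd (z : ℕ+) (p q : Ultrafilter ℕ+) :
    Ultrafilter.map (fun x => z * x) (uadd p q) =
      uadd (Ultrafilter.map (fun x => z * x) p) (Ultrafilter.map (fun x => z * x) q) := by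
  apply Ultrafilter.ext
  intro A
  rw [Ultrafilter.mem_map, mem_uadd, mem_uadd, Ultrafilter.mem_map]
  have : ∀ x : ℕ+, ({y : ℕ+ | x + y ∈ (fun x => z * x) ⁻¹' A} ∈ q ↔
      {y : ℕ+ | z * x + y ∈ A} ∈ Ultrafilter.map (fun x => z * x) q) := by
    intro x
    rw [Ultrafilter.mem_map]
    simp only [Set.preimage, Set.mem_ofPred_eq, mul_add]
  simp only [this]
  exact Iff.rfl

theorem K_map_mul (z : ℕ+) (u : Ultrafilter ℕ+) (hu : u ∈ K uadd) :
    Ultrafilter.map (fun x => z * x) u ∈ K uadd := by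
  classical
  intro I hI
  apply hu {w | Ultrafilter.map (fun x => z * x) w ∈ I}
  refine ⟨?_, ?_⟩
  · obtain ⟨⟨x, hx⟩, hI2⟩ := hI
    -- find a shift with multiples of z in it
    have hcov : (⋃ a ∈ Set.Iic z, {y : ℕ+ | z ∣ a + y}) ∈ x := by
      have : (⋃ a ∈ Set.Iic z, {y : ℕ+ | z ∣ a + y}) = Set.univ := by
        apply Set.eq_univ_of_forall
        intro y
        simp only [Set.mem_iUnion, Set.mem_ofPred_eq, Set.mem_Iic, exists_prop]
        have hz := z.pos
        have hmod : (y : ℕ) % z < z := Nat.mod_lt _ hz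
        obtain ⟨a, ha⟩ : ∃ a : ℕ+, (a : ℕ) = z - (y : ℕ) % z := ⟨⟨_, by omega⟩, rfl⟩
        refine ⟨a, ?_, ?_⟩
        · rw [← PNat.coe_le_coe, ha]; omega
        · rw [PNat.dvd_iff, PNat.add_coe, ha]
          have : (z : ℕ) - (y : ℕ) % z + y = z * (1 + (y : ℕ) / z) := by
            have := Nat.div_add_mod (y : ℕ) z
            have h2 : (z : ℕ) * (1 + (y : ℕ) / z) = z + z * ((y : ℕ) / z) := by ring
            rw [h2]; omega
          rw [this]; exact dvd_mul_right _ _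
      rw [this]; exact Filter.univ_mem
    have hfin : (Set.Iic z).Finite := Set.finite_Iic z
    obtain ⟨a, -, ha⟩ := (Ultrafilter.finite_biUnion_mem_iff hfin).1 hcov
    have hx' : uadd (pure a) x ∈ I := (hI2 (pure a) x hx).1
    have hmul : {y : ℕ+ | z ∣ y} ∈ uadd (pure a) x := by
      rw [mem_uadd]
      exact ha
    let g : ℕ+ → ℕ+ := fun y => if h : z ∣ y then Classical.choose h else 1
    have hg : ∀ y : ℕ+, z ∣ y → z * g y = y := by
      intro y hy
      simp only [g, dif_pos hy]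
      exact (Classical.choose_spec hy).symm
    refine ⟨Ultrafilter.map g (uadd (pure a) x), ?_⟩
    show Ultrafilter.map (fun x => z * x) (Ultrafilter.map g (uadd (pure a) x)) ∈ I
    have : Ultrafilter.map (fun x => z * x) (Ultrafilter.map g (uadd (pure a) x)) =
        uadd (pure a) x := by
      apply Ultrafilter.ext
      intro A
      rw [Ultrafilter.mem_map, Ultrafilter.mem_map]
      constructor
      · intro h
        filter_upwards [h, hmul] with y h1 h2
        have h3 : z * g y ∈ A := h1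
        rwa [hg y h2] at h3
      · intro h
        filter_upwards [h, hmul] with y h1 h2
        show z * g y ∈ A
        rw [hg y h2]; exact h1
    rw [this]; exact hx'
  · intro s x hx
    have hx' : Ultrafilter.map (fun x => z * x) x ∈ I := hx
    constructor
    · show Ultrafilter.map (fun x => z * x) (uadd s x) ∈ I
      rw [map_mul_uadd]
      exact (hI.2 _ _ hx').1
    · show Ultrafilter.map (fun x => z * x) (uadd x s) ∈ I
      rw [map_mul_uadd]
      exact (hI.2 _ _ hx').2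

theorem addCentral_of_dilate (z : ℕ+) (A : Set ℕ+) (h : AddCentral {x | z * x ∈ A}) :
    AddCentral A := by
  obtain ⟨u, h1, h2, h3⟩ := h
  refine ⟨Ultrafilter.map (fun x => z * x) u, K_map_mul z u h1, ?_, ?_⟩
  · rw [← map_mul_uadd, h2]
  · rw [Ultrafilter.mem_map]; exact h3

theorem J_left (r w : Ultrafilter ℕ+) (hw : w ∈ J) : umul r w ∈ J := by
  intro A hA
  rw [mem_umul] at hA
  obtain ⟨z, hz⟩ := Ultrafilter.nonempty_of_mem hA
  exact addCentral_of_dilate z A (hw _ hz)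

theorem mem_J_of_idem (u : Ultrafilter ℕ+) (h1 : u ∈ K uadd) (h2 : uadd u u = u) : u ∈ J :=
  fun _ hA => ⟨u, h1, h2, hA⟩

/-- If all the sets `{x | ∀ z ≤ i, z * x ∈ A}` are additively central, then `A` belongs to a
minimal multiplicative idempotent all of whose members are additively central. -/
theorem exists_mul_idem (A : Set ℕ+)
    (h : ∀ i : ℕ, AddCentral {x : ℕ+ | ∀ z : ℕ+, (z : ℕ) ≤ i → z * x ∈ A}) :
    ∃ p : Ultrafilter ℕ+, p ∈ K umul ∧ umul p p = p ∧ (∀ B ∈ p, AddCentral B) ∧ A ∈ p := by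
  let Y : ℕ → Set ℕ+ := fun i => {x : ℕ+ | ∀ z : ℕ+, (z : ℕ) ≤ i → z * x ∈ A}
  have hY : ∀ i, Y (i + 1) ⊆ Y i := by
    intro i x hx z hz
    exact hx z (by omega)
  obtain ⟨w, hw⟩ : (⋂ i, J ∩ {w : Ultrafilter ℕ+ | Y i ∈ w}).Nonempty := by
    apply IsCompact.nonempty_iInter_of_sequence_nonempty_isCompact_isClosed
    · intro i w hw
      exact ⟨hw.1, Filter.mem_of_superset hw.2 (hY i)⟩
    · intro i
      obtain ⟨u, h1, h2, h3⟩ := h i
      exact ⟨u, mem_J_of_idem u h1 h2, h3⟩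
    · exact (J_closed.inter (ultrafilter_isClosed_basic _)).isCompact
    · intro i
      exact J_closed.inter (ultrafilter_isClosed_basic _)
  rw [Set.mem_iInter] at hw
  have hwJ : w ∈ J := (hw 0).1
  have hwA : ∀ z : ℕ+, {x : ℕ+ | z * x ∈ A} ∈ w := by
    intro z
    have := (hw z).2
    apply Filter.mem_of_superset this
    intro x hx
    exact hx z le_rfl
  -- the closed left ideal generated by w
  let L : Set (Ultrafilter ℕ+) := (fun s => umul s w) '' Set.univ
  have hLc : IsClosed L := (isCompact_univ.image (umul_cont w)).isClosed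
  have hLn : L.Nonempty := ⟨_, ⟨w, trivial, rfl⟩⟩
  have hL : ∀ s, ∀ x ∈ L, umul s x ∈ L := by
    rintro s _ ⟨t, -, rfl⟩
    exact ⟨umul s t, trivial, umul_assoc s t w⟩
  obtain ⟨L0, hL0L, hL0c, hL0n, hL0, hmin⟩ :=
    exists_minimal_left umul umul_assoc umul_cont L hLc hLn hL
  obtain ⟨p, hp, hpp⟩ := exists_idem umul umul_assoc umul_cont L0 hL0c hL0n
    (fun x _ y hy => hL0 x y hy)
  refine ⟨p, subset_K umul L0 hL0 hmin hp, hpp, ?_, ?_⟩
  · obtain ⟨t, -, ht⟩ := hL0L hp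
    rw [← ht]
    exact J_left t w hwJ
  · obtain ⟨t, -, ht⟩ := hL0L hp
    rw [← ht]
    show A ∈ umul t w
    rw [mem_umul]
    have : {x : ℕ+ | {y : ℕ+ | x * y ∈ A} ∈ w} = Set.univ := Set.eq_univ_of_forall hwA
    rw [this]; exact Filter.univ_mem

/-- The 2-adic valuation. -/
def v (x : ℕ+) : ℕ := padicValNat 2 x

theorem v_add_of_dvd (x y : ℕ+) (h : 2 ^ (v x + 1) ∣ (y : ℕ)) : v (x + y) = v x := by
  unfold v
  rw [PNat.add_coe]
  have hx : (x : ℕ) ≠ 0 := x.ne_zero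
  have hxy : (x : ℕ) + y ≠ 0 := by have := x.pos; omega
  have h1 : 2 ^ padicValNat 2 (x : ℕ) ∣ (x : ℕ) := pow_padicValNat_dvd
  have h2 : ¬ 2 ^ (padicValNat 2 (x : ℕ) + 1) ∣ (x : ℕ) := pow_succ_padicValNat_not_dvd hx
  apply le_antisymm
  · by_contra hcon
    push Not at hcon
    have h3 : 2 ^ (padicValNat 2 (x : ℕ) + 1) ∣ (x : ℕ) + y :=
      (pow_dvd_pow 2 hcon).trans pow_padicValNat_dvd
    exact h2 ((Nat.dvd_add_left h).1 h3)
  · rw [← padicValNat_dvd_iff_le hxy]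
    exact dvd_add h1 ((pow_dvd_pow 2 (Nat.le_succ _)).trans h)

/-- A set which is the intersection of a thick set and `v⁻¹ D`, `D` infinite, is additively
central. -/
theorem addCentral_of_thick (Θ : Set ℕ+) (D : Set ℕ)
    (hΘ : ∀ n : ℕ, ∃ y : ℕ+, ∀ x : ℕ+, (x : ℕ) ≤ n → x + y ∈ Θ)
    (hD : ∀ n : ℕ, ∃ c ∈ D, n ≤ c) : AddCentral {x : ℕ+ | v x ∈ D ∧ x ∈ Θ} := by
  -- a left ideal inside the closure of Θ
  obtain ⟨w, hw⟩ : (⋂ n : ℕ, {w : Ultrafilter ℕ+ |
      {y : ℕ+ | ∀ x : ℕ+, (x : ℕ) ≤ n → x + y ∈ Θ} ∈ w}).Nonempty := by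
    apply IsCompact.nonempty_iInter_of_sequence_nonempty_isCompact_isClosed
    · intro i w hw
      apply Filter.mem_of_superset hw
      intro y hy x hx
      exact hy x (by omega)
    · intro i
      obtain ⟨y, hy⟩ := hΘ i
      exact ⟨pure y, hy⟩
    · exact (ultrafilter_isClosed_basic _).isCompact
    · intro i
      exact ultrafilter_isClosed_basic _
  rw [Set.mem_iInter] at hw
  have hwΘ : ∀ x : ℕ+, {y : ℕ+ | x + y ∈ Θ} ∈ w := by
    intro x
    apply Filter.mem_of_superset (hw x)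
    intro y hy
    exact hy x le_rfl
  let L : Set (Ultrafilter ℕ+) := (fun s => uadd s w) '' Set.univ
  have hLc : IsClosed L := (isCompact_univ.image (uadd_cont w)).isClosed
  have hLn : L.Nonempty := ⟨_, ⟨w, trivial, rfl⟩⟩
  have hL : ∀ s, ∀ x ∈ L, uadd s x ∈ L := by
    rintro s _ ⟨t, -, rfl⟩
    exact ⟨uadd s t, trivial, uadd_assoc s t w⟩
  have hLΘ : ∀ x ∈ L, Θ ∈ x := by
    rintro _ ⟨t, -, rfl⟩
    show Θ ∈ uadd t w
    rw [mem_uadd]
    have : {x : ℕ+ | {y : ℕ+ | x + y ∈ Θ} ∈ w} = Set.univ := Set.eq_univ_of_forall hwΘ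
    rw [this]; exact Filter.univ_mem
  obtain ⟨L0, hL0L, hL0c, hL0n, hL0, hmin⟩ :=
    exists_minimal_left uadd uadd_assoc uadd_cont L hLc hLn hL
  -- the closed subsemigroup T
  let T : ℕ → Set (Ultrafilter ℕ+) := fun j =>
    L0 ∩ {w | {x : ℕ+ | 2 ^ j ∣ (x : ℕ) ∧ v x ∈ D} ∈ w}
  have hTc : ∀ j, IsClosed (T j) := fun j => hL0c.inter (ultrafilter_isClosed_basic _)
  have hTn : (⋂ j, T j).Nonempty := by
    apply IsCompact.nonempty_iInter_of_sequence_nonempty_isCompact_isClosed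
    · intro j x hx
      refine ⟨hx.1, ?_⟩
      apply Filter.mem_of_superset hx.2
      rintro y ⟨h1, h2⟩
      exact ⟨(pow_dvd_pow 2 (Nat.le_succ j)).trans h1, h2⟩
    · intro j
      obtain ⟨c, hcD, hjc⟩ := hD j
      obtain ⟨u, hu⟩ := hL0n
      have hcov : (⋃ a ∈ Set.Iic ((2 : ℕ+) ^ (c + 1)), {y : ℕ+ | v (a + y) = c}) ∈ u := by
        have : (⋃ a ∈ Set.Iic ((2 : ℕ+) ^ (c + 1)), {y : ℕ+ | v (a + y) = c}) = Set.univ := by
          apply Set.eq_univ_of_forall
          intro y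
          simp only [Set.mem_iUnion, Set.mem_ofPred_eq, Set.mem_Iic, exists_prop]
          -- choose a ≡ 2^c - y
          set q : ℕ := 2 ^ (c + 1) with hq
          have hq0 : 0 < q := by positivity
          have hq2 : q = 2 * 2 ^ c := by rw [hq, pow_succ]; ring
          have h2c : 0 < 2 ^ c := by positivity
          have hmod : ((y : ℕ) + 2 ^ c) % q < q := Nat.mod_lt _ hq0
          obtain ⟨a, ha⟩ : ∃ a : ℕ+, (a : ℕ) = q - ((y : ℕ) + 2 ^ c) % q := ⟨⟨_, by omega⟩, rfl⟩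
          refine ⟨a, ?_, ?_⟩
          · rw [← PNat.coe_le_coe, ha, PNat.pow_coe]
            show q - ((y : ℕ) + 2 ^ c) % q ≤ 2 ^ (c + 1)
            rw [← hq]; omega
          · unfold v
            rw [PNat.add_coe, ha]
            have e1 : q - ((y : ℕ) + 2 ^ c) % q + y = 2 ^ c * (2 * (((y : ℕ) + 2 ^ c) / q) + 1) := by
              have := Nat.div_add_mod ((y : ℕ) + 2 ^ c) q
              have h2 : 2 ^ c * (2 * (((y : ℕ) + 2 ^ c) / q) + 1) =
                q * (((y : ℕ) + 2 ^ c) / q) + 2 ^ c := by rw [hq2]; ring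
              rw [h2]; omega
            rw [e1, padicValNat.mul (by positivity) (by omega), padicValNat.prime_pow]
            have : padicValNat 2 (2 * (((y : ℕ) + 2 ^ c) / q) + 1) = 0 := by
              apply padicValNat.eq_zero_of_not_dvd
              omega
            rw [this, add_zero]
        rw [this]; exact Filter.univ_mem
      obtain ⟨a, -, ha⟩ := (Ultrafilter.finite_biUnion_mem_iff (Set.finite_Iic _)).1 hcov
      refine ⟨uadd (pure a) u, hL0 _ _ hu, ?_⟩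
      show {x : ℕ+ | 2 ^ j ∣ (x : ℕ) ∧ v x ∈ D} ∈ uadd (pure a) u
      rw [mem_uadd]
      show {y : ℕ+ | a + y ∈ {x : ℕ+ | 2 ^ j ∣ (x : ℕ) ∧ v x ∈ D}} ∈ u
      apply Filter.mem_of_superset ha
      intro y hy
      have hy' : v (a + y) = c := hy
      refine ⟨?_, ?_⟩
      · have : 2 ^ padicValNat 2 ((a + y : ℕ+) : ℕ) ∣ ((a + y : ℕ+) : ℕ) := pow_padicValNat_dvd
        apply (pow_dvd_pow 2 _).trans this
        unfold v at hy'
        rw [hy']; exact hjc
      · rw [hy']; exact hcD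
    · exact (hTc 0).isCompact
    · exact hTc
  obtain ⟨e, heT, hee⟩ := exists_idem uadd uadd_assoc uadd_cont (⋂ j, T j)
    (isClosed_iInter hTc) hTn (by
      intro x hx y hy
      rw [Set.mem_iInter] at hx hy ⊢
      intro j
      refine ⟨hL0 x y (hy j).1, ?_⟩
      show {x : ℕ+ | 2 ^ j ∣ (x : ℕ) ∧ v x ∈ D} ∈ uadd x y
      rw [mem_uadd]
      apply Filter.mem_of_superset (hx j).2
      rintro a ⟨ha1, ha2⟩
      show {b : ℕ+ | a + b ∈ {x : ℕ+ | 2 ^ j ∣ (x : ℕ) ∧ v x ∈ D}} ∈ y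
      have h1 := (hy j).2
      have h2 := (hy (v a + 1)).2
      filter_upwards [h1, h2] with b hb1 hb2
      have hb1' : 2 ^ j ∣ (b : ℕ) ∧ v b ∈ D := hb1
      have hb2' : 2 ^ (v a + 1) ∣ (b : ℕ) ∧ v b ∈ D := hb2
      refine ⟨?_, ?_⟩
      · rw [PNat.add_coe]; exact dvd_add ha1 hb1'.1
      · rw [v_add_of_dvd a b hb2'.1]; exact ha2)
  rw [Set.mem_iInter] at heT
  refine ⟨e, subset_K uadd L0 hL0 hmin (heT 0).1, hee, ?_⟩
  have h1 := (heT 0).2
  have h2 := hLΘ e (hL0L (heT 0).1)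
  filter_upwards [h1, h2] with x hx1 hx2
  exact ⟨hx1.2, hx2⟩

end Pool.Agent.Work.MP_d04c84_co
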