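import Mathlib
import Pool.Agent.Work.MP_d04c84_co.Beta

set_option autoImplicit false

/-! The set without the configuration `{m, n, m + n, m 2 ^ n}`. -/

namespace Pool.Agent.Work.MP_d04c84_co

/-- A fast growing sequence. -/
def t : ℕ → ℕ
  | 0 => 1
  | s + 1 => 4 * (s + 1) ^ 2 * (t s + (s + 1))

theorem t_ge (s : ℕ) : s + 1 ≤ t s := by
  induction s with
  | zero => simp [t]
  | succ s ih =>
    show s + 1 + 1 ≤ 4 * (s + 1) ^ 2 * (t s + (s + 1))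
    nlinarith [Nat.zero_le s, sq_nonneg s]

theorem t_growth1 (s : ℕ) : 2 * (t s + s) < t (s + 1) := by
  show 2 * (t s + s) < 4 * (s + 1) ^ 2 * (t s + (s + 1))
  have h := t_ge s
  nlinarith [Nat.zero_le s, sq_nonneg s, Nat.zero_le (s ^ 2 * t s), Nat.zero_le (s * t s),
    Nat.zero_le (s ^ 2 * s)]

theorem t_growth2 (s : ℕ) : 2 * (s ^ 2 * t s) < t (s + 1) := by
  show 2 * (s ^ 2 * t s) < 4 * (s + 1) ^ 2 * (t s + (s + 1))
  have h := t_ge s
  nlinarith [Nat.zero_le s, sq_nonneg s, Nat.zero_le (s ^ 2 * t s), Nat.zero_le (s * t s),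
    Nat.zero_le (s ^ 2 * s)]

theorem t_mono : StrictMono t := strictMono_nat_of_lt_succ (fun s => by
  have := t_growth1 s; omega)

theorem t_uniq (x s s' : ℕ) (h1 : t s ≤ x) (h2 : x < t (s + 1)) (h3 : t s' ≤ x)
    (h4 : x < t (s' + 1)) : s = s' := by
  have h5 : s < s' + 1 := t_mono.lt_iff_lt.1 (lt_of_le_of_lt h1 h4)
  have h6 : s' < s + 1 := t_mono.lt_iff_lt.1 (lt_of_le_of_lt h3 h2)
  omega

/-- The level of an index. -/
def lev (j : ℕ) : ℕ := (Nat.unpair j).1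

theorem lev_le (j : ℕ) : lev j ≤ j := Nat.unpair_left_le j

theorem exists_lev (i n : ℕ) : ∃ j, lev j = i ∧ n ≤ j := by
  refine ⟨Nat.pair i n, ?_, Nat.right_le_pair i n⟩
  simp [lev]

/-- The example set. -/
def AA : Set ℕ+ := {m | ∃ j k : ℕ, lev j = lev k ∧ t (2 * j) ≤ (m : ℕ) ∧
  (m : ℕ) ≤ j ^ 2 * t (2 * j) ∧ t (2 * k + 1) ≤ v m ∧ 2 ^ (v m - t (2 * k + 1)) ≤ lev k}

theorem exc (x k : ℕ) (h1 : t (2 * k + 1) ≤ x) (h2 : 2 ^ (x - t (2 * k + 1)) ≤ lev k) :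
    ∃ e, x = t (2 * k + 1) + e ∧ e < k ∧ 2 ^ e ≤ lev k ∧ 2 * x < t (2 * k + 1 + 1) := by
  obtain ⟨e, rfl⟩ := Nat.exists_eq_add_of_le h1
  rw [Nat.add_sub_cancel_left] at h2
  have h3 : e < 2 ^ e := Nat.lt_two_pow_self
  have h4 := lev_le k
  have h5 := t_growth1 (2 * k + 1)
  exact ⟨e, rfl, by omega, h2, by omega⟩

theorem size (x j : ℕ) (h : x ≤ j ^ 2 * t (2 * j)) : 2 * x < t (2 * j + 1) := by
  have h1 := t_growth2 (2 * j)
  have h2 : j ^ 2 * t (2 * j) ≤ (2 * j) ^ 2 * t (2 * j) := by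
    apply Nat.mul_le_mul_right
    nlinarith
  omega

theorem v_lt (m : ℕ+) : v m < m := by
  have h3 : 2 ^ padicValNat 2 (m : ℕ) ∣ (m : ℕ) := pow_padicValNat_dvd
  have h4 := Nat.le_of_dvd m.pos h3
  have h5 : padicValNat 2 (m : ℕ) < 2 ^ padicValNat 2 (m : ℕ) := Nat.lt_two_pow_self
  unfold v
  omega

theorem no_config : ¬ ∃ m n : ℕ+, m ∈ AA ∧ n ∈ AA ∧ m + n ∈ AA ∧ m * 2 ^ (n : ℕ) ∈ AA := by
  rintro ⟨m, n, ⟨j1, k1, hl1, ha1, hb1, hc1, hd1⟩, ⟨j2, k2, hl2, ha2, hb2, hc2, hd2⟩,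
    ⟨j3, k3, hl3, ha3, hb3, hc3, hd3⟩, ⟨j4, k4, hl4, ha4, hb4, hc4, hd4⟩⟩
  have hv4 : v (m * 2 ^ (n : ℕ)) = v m + n := by
    unfold v
    rw [PNat.mul_coe, PNat.pow_coe, padicValNat.mul m.ne_zero (by simp)]
    congr 1
    show padicValNat 2 (2 ^ (n : ℕ)) = n
    exact padicValNat.prime_pow _
  rw [hv4] at hc4 hd4
  obtain ⟨e1, he1, hk1, hp1, hg1⟩ := exc _ _ hc1 hd1
  obtain ⟨e2, he2, hk2, hp2, hg2⟩ := exc _ _ hc2 hd2
  obtain ⟨e3, he3, hk3, hp3, hg3⟩ := exc _ _ hc3 hd3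
  obtain ⟨e4, he4, hk4, hp4, hg4⟩ := exc _ _ hc4 hd4
  have hs1 := size _ _ hb1
  have hs2 := size _ _ hb2
  have hs3 := size _ _ hb3
  clear hb1 hb2 hb3 hb4 ha4 hd1 hd2 hd3 hd4
  have hnpos := n.pos
  have hvn0 := v_lt n
  have hvm := v_lt m
  rcases le_or_gt (v m) (n : ℕ) with hcase | hcase
  · -- first case: v m ≤ n
    have h1 : 2 * j2 = 2 * k4 + 1 := by
      apply t_uniq (v m + n)
      · linarith
      · linarith
      · exact hc4
      · linarith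
    omega
  · -- second case: n < v m
    have h1 : 2 * k1 + 1 = 2 * k4 + 1 := by
      apply t_uniq (v m + n)
      · linarith
      · linarith
      · exact hc4
      · linarith
    have hk : k1 = k4 := by omega
    subst hk
    have hne : (n : ℕ) ≤ e4 := by linarith
    have h2 : 2 ^ (n : ℕ) ≤ lev k1 := (Nat.pow_le_pow_right (by norm_num) hne).trans hp4
    -- valuations of n and m + n
    have hvn : v n < v m := by linarith
    have hvmn : v (m + n) = v n := by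
      rw [add_comm]
      apply v_add_of_dvd
      apply (pow_dvd_pow 2 (show v n + 1 ≤ v m by linarith)).trans
      exact pow_padicValNat_dvd
    rw [hvmn] at hc3 hg3
    have h3 : 2 * k2 + 1 = 2 * k3 + 1 := by
      apply t_uniq (v n)
      · exact hc2
      · linarith
      · exact hc3
      · linarith
    have hk : k2 = k3 := by omega
    subst hk
    -- sizes of m and m + n
    rw [PNat.add_coe] at ha3 hs3
    have h4 : 2 * j1 = 2 * j3 := by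
      apply t_uniq ((m : ℕ) + n)
      · linarith
      · linarith
      · exact ha3
      · linarith
    have hj : j1 = j3 := by omega
    subst hj
    -- conclusion
    have h5 : lev j2 = lev k1 := by rw [hl2, ← hl3, hl1]
    have h6 := lev_le j2
    have h7 := t_ge (2 * j2)
    have h8 : (n : ℕ) < 2 ^ (n : ℕ) := Nat.lt_two_pow_self
    linarith

theorem central_Y (i : ℕ) : AddCentral {x : ℕ+ | ∀ z : ℕ+, (z : ℕ) ≤ i → z * x ∈ AA} := by
  -- the case i = 0 is trivial monotonicity, so treat i + 1 uniformly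
  have key : AddCentral {x : ℕ+ | v x ∈ {c | ∃ k, lev k = i ∧ c = t (2 * k + 1)} ∧
      x ∈ {x : ℕ+ | ∃ j, lev j = i ∧ t (2 * j) ≤ (x : ℕ) ∧ (x : ℕ) ≤ j * t (2 * j)}} := by
    apply addCentral_of_thick
    · intro n
      obtain ⟨j, hj1, hj2⟩ := exists_lev i (n + 2)
      have h1 := t_ge (2 * j)
      obtain ⟨y, hy⟩ : ∃ y : ℕ+, (y : ℕ) = t (2 * j) := ⟨⟨t (2 * j), by omega⟩, rfl⟩
      refine ⟨y, ?_⟩
      intro x hx
      refine ⟨j, hj1, ?_, ?_⟩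
      · rw [PNat.add_coe, hy]; omega
      · rw [PNat.add_coe, hy]
        nlinarith
    · intro n
      obtain ⟨k, hk1, hk2⟩ := exists_lev i n
      refine ⟨t (2 * k + 1), ⟨k, hk1, rfl⟩, ?_⟩
      have := t_ge (2 * k + 1)
      omega
  apply key.mono
  rintro x ⟨⟨k, hk1, hk2⟩, ⟨j, hj1, hj2, hj3⟩⟩ z hz
  have hz1 := z.pos
  have hvz : v (z * x) = v z + v x := by
    unfold v
    rw [PNat.mul_coe, padicValNat.mul z.ne_zero x.ne_zero]
  refine ⟨j, k, by rw [hj1, hk1], ?_, ?_, ?_, ?_⟩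
  · rw [PNat.mul_coe]; nlinarith
  · rw [PNat.mul_coe]
    have h1 : i ≤ j := by rw [← hj1]; exact lev_le j
    calc (z : ℕ) * x ≤ j * (j * t (2 * j)) := Nat.mul_le_mul (hz.trans h1) hj3
      _ = j ^ 2 * t (2 * j) := by ring
  · rw [hvz, hk2]; omega
  · rw [hvz, hk2, hk1]
    have h3 : 2 ^ padicValNat 2 (z : ℕ) ∣ (z : ℕ) := pow_padicValNat_dvd
    have h4 := Nat.le_of_dvd hz1 h3
    have : v z + t (2 * k + 1) - t (2 * k + 1) = padicValNat 2 (z : ℕ) := by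
      unfold v; omega
    rw [this]; omega

theorem exists_counterexample :
    ∃ p : Ultrafilter ℕ+, p ∈ K umul ∧ umul p p = p ∧ (∀ B ∈ p, AddCentral B) ∧
      ∃ A ∈ p, ¬ ∃ m n : ℕ+, m ∈ A ∧ n ∈ A ∧ m + n ∈ A ∧ m * 2 ^ (n : ℕ) ∈ A := by
  obtain ⟨p, h1, h2, h3, h4⟩ := exists_mul_idem AA central_Y
  exact ⟨p, h1, h2, h3, AA, h4, no_config⟩

end Pool.Agent.Work.MP_d04c84_co
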